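import Pool.Agent.Helper7.LQ.Defs

/-!
# Words with constant patterns have few alternating segments
-/

namespace Pool.Agent.Helper7.LQ

open Pool.Agent.Helper6.TreeEval

variable {α : Type}

lemma segs_nil (A B : α → Prop) (m : ℕ) (o : Bool) : Segs A B m o [] := by
  induction m generalizing o with
  | zero => rfl
  | succ m ih => exact ⟨[], [], rfl, by simp, ih _⟩

lemma segs_swap {A B : α → Prop} {m : ℕ} {o : Bool} {W : List α} (h : Segs A B m o W) :
    Segs B A m (!o) W := by
  induction m generalizing o W with
  | zero => exact h
  | succ m ih =>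
    obtain ⟨P, R, hW, hP, hR⟩ := h
    refine ⟨P, R, hW, ?_, ih hR⟩
    intro x hx
    have := hP x hx
    cases o <;> simpa using this

variable [DecidableEq α]

lemma pat_swap (W : List α) {a b : α} (hab : a ≠ b) : pat W b a = swp (pat W a b) := by
  unfold pat swp
  rw [List.map_map]
  have h1 : (W.filter fun x => x = b ∨ x = a) = W.filter fun x => x = a ∨ x = b := by
    congr 1
    funext x
    simp only [or_comm]
  rw [h1]
  apply List.map_congr_left
  intro x hx
  rcases (by simpa using (List.mem_filter.1 hx).2 : x = a ∨ x = b) with rfl | rfl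
  · simp [hab]
  · simp [Ne.symm hab]

lemma pat_append (P R : List α) (a b : α) : pat (P ++ R) a b = pat P a b ++ pat R a b := by
  simp [pat]

lemma pat_of_not_mem (P : List α) {a b : α} (hb : b ∉ P) :
    pat P a b = List.replicate (P.count a) true := by
  induction P with
  | nil => simp [pat]
  | cons x P ih =>
    have hx : x ≠ b := fun h => hb (h ▸ List.mem_cons_self)
    have ih := ih (fun h => hb (List.mem_cons_of_mem _ h))
    unfold pat at ih ⊢
    by_cases hxa : x = a
    · subst hxa
      simp only [true_or, decide_true, List.filter_cons_of_pos, List.map_cons, ih,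
        List.count_cons_self, List.replicate_succ]
    · rw [List.filter_cons_of_neg (by simp [hxa, hx]), ih, List.count_cons_of_ne hxa]

lemma runs_aux (m : ℕ) : ∀ (A B : α → Prop) (a0 : α), A a0 →
    (∀ x, A x → ¬ B x) → ∀ (ω : List Bool), (true :: ω).length ≤ m → ∀ W : List α,
    (∀ a b, A a → B b → pat W a b = true :: ω) → Segs A B m true W := by
  classical
  induction m with
  | zero => intro A B a0 ha0 hAB ω hm; simp at hm
  | succ m ih =>
    intro A B a0 ha0 hAB ω hm W hW
    refine ⟨W.takeWhile fun x => ¬ B x, W.dropWhile fun x => ¬ B x,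
      (List.takeWhile_append_dropWhile).symm, ?_, ?_⟩
    · intro x hx
      have := List.mem_takeWhile_imp hx
      simpa using this
    · obtain ⟨P, hP⟩ : ∃ P, P = W.takeWhile fun x => ¬ B x := ⟨_, rfl⟩
      obtain ⟨R, hR⟩ : ∃ R, R = W.dropWhile fun x => ¬ B x := ⟨_, rfl⟩
      have hPB : ∀ x ∈ P, ¬ B x := by
        intro x hx
        rw [hP] at hx
        have := List.mem_takeWhile_imp hx
        simpa using this
      have hWPR : W = P ++ R := by rw [hP, hR]; exact (List.takeWhile_append_dropWhile).symm
      rw [← hR]
      rcases R with _ | ⟨b1, R⟩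
      · exact segs_nil _ _ _ _
      have hb1 : B b1 := by
        have h1 := List.head?_dropWhile_not (fun x => decide (¬ B x)) W
        rw [← hR] at h1
        simpa using h1
      have key : ∀ a b, A a → B b →
          List.replicate (P.count a) true ++ pat (b1 :: R) a b = true :: ω := by
        intro a b ha hb
        rw [← hW a b ha hb, hWPR, pat_append, pat_of_not_mem P (fun h => hPB b h hb)]
      have hfirst : ∀ a, A a → ∃ τ, pat (b1 :: R) a b1 = false :: τ := by
        intro a ha
        have hne : b1 ≠ a := fun h => hAB a ha (h ▸ hb1)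
        refine ⟨pat R a b1, ?_⟩
        unfold pat
        rw [List.filter_cons_of_pos (by simp)]
        simp [hne]
      obtain ⟨τ0, hτ0⟩ := hfirst a0 ha0
      have h0 := key a0 b1 ha0 hb1
      rw [hτ0] at h0
      have hi : ∀ a, A a → P.count a = P.count a0 := by
        intro a ha
        obtain ⟨τ, hτ⟩ := hfirst a ha
        have h1 := key a b1 ha hb1
        rw [hτ, ← h0] at h1
        have h2 := congrArg (fun l => (l.takeWhile id).length) h1
        simpa [List.takeWhile_append] using h2
      have hpos : 1 ≤ P.count a0 := by
        by_contra hlt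
        have h3 : P.count a0 = 0 := by omega
        rw [h3] at h0
        simp at h0
      have hpat : ∀ a b, A a → B b → pat (b1 :: R) a b = false :: τ0 := by
        intro a b ha hb
        have h1 := key a b ha hb
        rw [hi a ha, ← h0] at h1
        exact List.append_cancel_left h1
      have hlen : (true :: swp τ0).length ≤ m := by
        have h4 := congrArg List.length h0
        simp only [List.length_append, List.length_replicate, List.length_cons] at h4 hm
        simp only [swp, List.length_cons, List.length_map]
        omega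
      have h5 := ih B A b1 hb1 (fun x hx hx' => hAB x hx' hx) (swp τ0) hlen (b1 :: R) (by
        intro b a hb ha
        have hne : a ≠ b := fun h => hAB a ha (h ▸ hb)
        rw [pat_swap _ hne, hpat a b ha hb]
        simp [swp])
      exact segs_swap h5

theorem runs {α : Type} [DecidableEq α] {A B : α → Prop} {a0 b0 : α} (ha0 : A a0) (hb0 : B b0)
    (hAB : ∀ x, A x → ¬ B x) (m : ℕ) (hm0 : 1 ≤ m) (ω : List Bool) (hm : ω.length ≤ m)
    (W : List α) (hW : ∀ a b, A a → B b → pat W a b = ω) :
    ∃ o, Segs A B m o W := by
  rcases ω with _ | ⟨x, ω⟩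
  · refine ⟨true, ?_⟩
    obtain ⟨m, rfl⟩ : ∃ m', m = m' + 1 := ⟨m - 1, by omega⟩
    refine ⟨W, [], by simp, ?_, segs_nil _ _ _ _⟩
    intro x hx
    rw [if_pos rfl]
    intro hB
    have h1 := hW a0 x ha0 hB
    have h2 : x ∈ W.filter fun y => y = a0 ∨ y = x := by
      rw [List.mem_filter]
      exact ⟨hx, by simp⟩
    have h3 : (W.filter fun y => y = a0 ∨ y = x) = [] := by
      simpa [pat] using h1
    rw [h3] at h2
    simp at h2
  · cases x with
    | true => exact ⟨true, runs_aux m A B a0 ha0 hAB ω hm W hW⟩
    | false =>
      refine ⟨false, ?_⟩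
      have h1 := runs_aux m B A b0 hb0 (fun x hx hx' => hAB x hx' hx) (swp ω)
        (by simpa [swp] using hm) W (by
          intro b a hb ha
          have hne : a ≠ b := fun h => hAB a ha (h ▸ hb)
          rw [pat_swap _ hne, hW a b ha hb]
          simp [swp])
      exact segs_swap h1

end Pool.Agent.Helper7.LQ
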